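import Mathlib

/-!
# Second order bounds in a real inner product space
-/

set_option autoImplicit false

namespace Pool.Agent.Helper48.BM2

variable {H : Type*} [NormedAddCommGroup H] [InnerProductSpace ℝ H]

/-- second order upper bound at a unit vector of a real inner product space -/
theorem inner_upper {a : H} (ha : ‖a‖ = 1) (b : H) (t : ℝ) :
    ‖a + t • b‖ + ‖a - t • b‖ ≤ 2 + ‖b‖ ^ 2 * t ^ 2 := by
  have h1 : ‖a + t • b‖ ^ 2 + ‖a - t • b‖ ^ 2 = 2 * (1 + ‖b‖ ^ 2 * t ^ 2) := by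
    have := parallelogram_law_with_norm ℝ a (t • b)
    rw [norm_smul, ha, Real.norm_eq_abs] at this
    have h2 : |t| * ‖b‖ * (|t| * ‖b‖) = ‖b‖ ^ 2 * t ^ 2 := by
      rw [← sq_abs t]
      ring
    nlinarith
  have h3 : (‖a + t • b‖ + ‖a - t • b‖) ^ 2 ≤ (2 + ‖b‖ ^ 2 * t ^ 2) ^ 2 := by
    nlinarith [sq_nonneg (‖a + t • b‖ - ‖a - t • b‖), sq_nonneg (‖b‖ ^ 2 * t ^ 2)]
  exact abs_le_of_sq_le_sq' h3 (by positivity) |>.2

/-- second order lower bound at a unit vector of a real inner product space in every direction which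
is not parallel to it -/
theorem inner_lower {a b : H} (ha : ‖a‖ = 1) (hb : b ∉ Submodule.span ℝ {a}) :
    ∃ c : ℝ, 0 < c ∧ ∀ t : ℝ, |t| ≤ 1 → 2 + c * t ^ 2 ≤ ‖a + t • b‖ + ‖a - t • b‖ := by
  set p : ℝ := inner ℝ a b with hp
  set n : ℝ := ‖b‖ ^ 2 with hn
  -- strict Cauchy Schwarz
  have hq : 0 < n - p ^ 2 := by
    have h1 : b - p • a ≠ 0 := by
      intro h0
      apply hb
      rw [Submodule.mem_span_singleton]
      exact ⟨p, (sub_eq_zero.mp h0).symm⟩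
    have h2 : 0 < ‖b - p • a‖ ^ 2 := by positivity
    have h3 : ‖b - p • a‖ ^ 2 = n - p ^ 2 := by
      rw [norm_sub_sq_real, inner_smul_right, norm_smul, ha, real_inner_comm, ← hp, mul_one,
        Real.norm_eq_abs, sq_abs]
      ring
    rwa [h3] at h2
  refine ⟨min ((n - p ^ 2) / 2) 1, by positivity, fun t ht => ?_⟩
  set c : ℝ := min ((n - p ^ 2) / 2) 1 with hc
  have hc0 : 0 < c := by positivity
  have hc1 : c ≤ 1 := min_le_right _ _
  have hc2 : c ≤ (n - p ^ 2) / 2 := min_le_left _ _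
  have ht1 : t ^ 2 ≤ 1 := by
    rw [← sq_abs t]
    exact pow_le_one₀ (abs_nonneg t) ht
  set A : ℝ := ‖a + t • b‖ with hA
  set B : ℝ := ‖a - t • b‖ with hB
  have hA0 : 0 ≤ A := norm_nonneg _
  have hB0 : 0 ≤ B := norm_nonneg _
  have hA2 : A ^ 2 = 1 + 2 * t * p + t ^ 2 * n := by
    rw [hA, norm_add_sq_real, inner_smul_right, norm_smul, ha, ← hp, Real.norm_eq_abs, mul_pow,
      sq_abs]
    ring
  have hB2 : B ^ 2 = 1 - 2 * t * p + t ^ 2 * n := by
    rw [hB, norm_sub_sq_real, inner_smul_right, norm_smul, ha, ← hp, Real.norm_eq_abs, mul_pow,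
      sq_abs]
    ring
  have hAB : 1 + t ^ 2 * n - 2 * t ^ 2 * p ^ 2 ≤ A * B := by
    have h1 : (1 + t ^ 2 * n - 2 * t ^ 2 * p ^ 2) ^ 2 ≤ (A * B) ^ 2 := by
      rw [mul_pow, hA2, hB2]
      have h2 : 0 ≤ (t ^ 2) ^ 2 * (p ^ 2 * (n - p ^ 2)) := by positivity
      nlinarith
    exact abs_le_of_sq_le_sq' h1 (by positivity) |>.2
  have hS : 4 + 4 * (t ^ 2 * (n - p ^ 2)) ≤ (A + B) ^ 2 := by nlinarith
  have hfin : (2 + c * t ^ 2) ^ 2 ≤ (A + B) ^ 2 := by
    refine le_trans ?_ hS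
    have h1 : c * t ^ 2 ≤ (n - p ^ 2) / 2 * t ^ 2 := mul_le_mul_of_nonneg_right hc2 (sq_nonneg t)
    have h2 : c * t ^ 2 ≤ 1 := by nlinarith [sq_nonneg t]
    have h3 : 0 ≤ c * t ^ 2 := by positivity
    nlinarith
  exact abs_le_of_sq_le_sq' hfin (by positivity) |>.2

end Pool.Agent.Helper48.BM2
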