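import Mathlib

/-!
# One point on every line where the norm has a second order upper bound

Along a line the norm is convex, its (arbitrarily chosen) subgradients form a monotone function, and a
monotone function is differentiable almost everywhere.
-/

set_option autoImplicit false

open Filter Topology Set

namespace Pool.Agent.Helper48.BM2

/-- a real function with a subgradient `f` and a global Lipschitz bound has, in every interval
`(0, d)`, a point at which its symmetric second differences are at most quadratic -/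
lemma real_line {F f : ℝ → ℝ} {L : ℝ} (hsub : ∀ s t : ℝ, F t + (s - t) * f t ≤ F s)
    (hL : ∀ s t : ℝ, F s - F t ≤ L * |s - t|) {d : ℝ} (hd : 0 < d) :
    ∃ t : ℝ, 0 < t ∧ t < d ∧ ∃ C : ℝ, ∀ s : ℝ, F (t + s) + F (t - s) ≤ 2 * F t + C * s ^ 2 := by
  have hmono : Monotone f := by
    intro a b hab
    rcases hab.eq_or_lt with h | h
    · rw [h]
    · have h1 := hsub a b
      have h2 := hsub b a
      nlinarith
  have hae := hmono.ae_differentiableAt
  have hex : ∃ t ∈ Ioo (0 : ℝ) d, DifferentiableAt ℝ f t := by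
    by_contra hcon
    push Not at hcon
    have hsubset : Ioo (0 : ℝ) d ⊆ {t | ¬ DifferentiableAt ℝ f t} := fun t ht => hcon t ht
    have h0 : MeasureTheory.volume (Ioo (0 : ℝ) d) = 0 :=
      MeasureTheory.measure_mono_null hsubset (by simpa [MeasureTheory.ae_iff] using hae)
    rw [Real.volume_Ioo] at h0
    simp at h0
    linarith
  obtain ⟨t, ⟨ht0, htd⟩, hdiff⟩ := hex
  refine ⟨t, ht0, htd, ?_⟩
  have hO := hdiff.isBigO_sub
  obtain ⟨K, hK0, hK⟩ := hO.exists_pos
  rw [Asymptotics.isBigOWith_iff] at hK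
  obtain ⟨e, he, hball⟩ := Metric.eventually_nhds_iff.mp hK
  have hL0 : 0 ≤ L := by
    have h1 := hL 1 0
    have h2 := hL 0 1
    have h3 : |(1 : ℝ) - 0| = 1 := by norm_num
    have h4 : |(0 : ℝ) - 1| = 1 := by norm_num
    rw [h3] at h1
    rw [h4] at h2
    linarith
  refine ⟨2 * K + 4 * L / e, fun s => ?_⟩
  by_cases hs : |s| < e
  · have h1 : |f (t + s) - f t| ≤ K * |s| := by
      have := hball (y := t + s) (by simpa [Real.dist_eq] using hs)
      simpa [Real.norm_eq_abs] using this
    have h2 : |f (t - s) - f t| ≤ K * |s| := by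
      have := hball (y := t - s) (by simpa [Real.dist_eq] using hs)
      simpa [Real.norm_eq_abs] using this
    have h3 := hsub t (t + s)
    have h4 := hsub t (t - s)
    have h5 : s * (f (t + s) - f (t - s)) ≤ |s| * (2 * K * |s|) := by
      calc s * (f (t + s) - f (t - s)) ≤ |s * (f (t + s) - f (t - s))| := le_abs_self _
        _ = |s| * |f (t + s) - f (t - s)| := abs_mul _ _
        _ ≤ |s| * (2 * K * |s|) := by
          gcongr
          calc |f (t + s) - f (t - s)| = |(f (t + s) - f t) - (f (t - s) - f t)| := by ring_nf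
            _ ≤ |f (t + s) - f t| + |f (t - s) - f t| := abs_sub _ _
            _ ≤ 2 * K * |s| := by linarith
    have h6 : |s| * (2 * K * |s|) = 2 * K * s ^ 2 := by
      rw [← sq_abs s]
      ring
    have h7 : 0 ≤ 4 * L / e * s ^ 2 := by positivity
    nlinarith
  · have hs' : e ≤ |s| := not_lt.mp hs
    have h1 := hL (t + s) t
    have h2 := hL (t - s) t
    have h3 : |t + s - t| = |s| := by ring_nf
    have h4 : |t - s - t| = |s| := by
      rw [show t - s - t = -s by ring, abs_neg]
    rw [h3] at h1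
    rw [h4] at h2
    have h5 : |s| ≤ s ^ 2 / e := by
      rw [le_div_iff₀ he, ← sq_abs s, sq]
      exact mul_le_mul_of_nonneg_left hs' (abs_nonneg s)
    have h6 : L * |s| ≤ L * (s ^ 2 / e) := mul_le_mul_of_nonneg_left h5 hL0
    have h7 : 0 ≤ 2 * K * s ^ 2 := by positivity
    have h8 : 4 * L / e * s ^ 2 = 4 * (L * (s ^ 2 / e)) := by ring
    have h9 : 0 ≤ L * (s ^ 2 / e) := by positivity
    nlinarith

variable {E : Type*} [NormedAddCommGroup E] [NormedSpace ℝ E]

/-- on every line through `x` there are points arbitrarily close to `x` at which the norm has a second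
order upper bound in the direction of the line -/
theorem exists_line (x v : E) {d : ℝ} (hd : 0 < d) :
    ∃ t : ℝ, 0 < t ∧ t < d ∧ ∃ C : ℝ, ∀ s : ℝ,
      ‖x + t • v + s • v‖ + ‖x + t • v - s • v‖ ≤ 2 * ‖x + t • v‖ + C * s ^ 2 := by
  have hg : ∀ t : ℝ, ∃ g : StrongDual ℝ E, ‖g‖ ≤ 1 ∧ g (x + t • v) = ‖x + t • v‖ := fun t => by
    obtain ⟨g, h1, h2⟩ := exists_dual_vector'' ℝ (x + t • v)
    exact ⟨g, h1, by simpa using h2⟩
  choose g hg1 hg2 using hg
  have hsub : ∀ s t : ℝ, ‖x + t • v‖ + (s - t) * g t v ≤ ‖x + s • v‖ := by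
    intro s t
    have h1 : g t (x + s • v) = ‖x + t • v‖ + (s - t) * g t v := by
      rw [← hg2 t]
      simp only [map_add, map_smul, smul_eq_mul]
      ring
    rw [← h1]
    calc g t (x + s • v) ≤ ‖g t (x + s • v)‖ := Real.le_norm_self _
      _ ≤ ‖g t‖ * ‖x + s • v‖ := (g t).le_opNorm _
      _ ≤ 1 * ‖x + s • v‖ := by gcongr; exact hg1 t
      _ = ‖x + s • v‖ := one_mul _
  have hL : ∀ s t : ℝ, ‖x + s • v‖ - ‖x + t • v‖ ≤ ‖v‖ * |s - t| := by
    intro s t
    calc ‖x + s • v‖ - ‖x + t • v‖ ≤ ‖(x + s • v) - (x + t • v)‖ := norm_sub_norm_le _ _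
      _ = ‖(s - t) • v‖ := by congr 1; rw [sub_smul]; abel
      _ = ‖v‖ * |s - t| := by rw [norm_smul, Real.norm_eq_abs, mul_comm]
  obtain ⟨t, ht0, htd, C, hC⟩ := real_line (F := fun t => ‖x + t • v‖) (f := fun t => g t v)
    (L := ‖v‖) hsub hL hd
  refine ⟨t, ht0, htd, C, fun s => ?_⟩
  have h1 : x + t • v + s • v = x + (t + s) • v := by rw [add_smul]; abel
  have h2 : x + t • v - s • v = x + (t - s) • v := by rw [sub_smul]; abel
  rw [h1, h2]
  exact hC s

end Pool.Agent.Helper48.BM2
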