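import Pool.Agent.Helper48.BM2.Sub

/-!
# Second order lower bound from a dense set of second order upper bounds in the dual
-/

set_option autoImplicit false

namespace Pool.Agent.Helper48.BM2

variable {E : Type*} [NormedAddCommGroup E] [NormedSpace ℝ E]

/-- If the dual norm has a second order upper bound at a norming functional `f` of the unit vector
`x` in a dense set of directions, then the norm of `E` has a second order lower bound at `x` in every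
direction which is not parallel to `x`. -/
theorem lower_of_dense {x : E} (hx : ‖x‖ = 1) {f : StrongDual ℝ E} (hf : ‖f‖ = 1) (hfx : f x = 1)
    (hD : Dense {φ : StrongDual ℝ E | Q2 f φ}) {v : E} (hv : v ∉ Submodule.span ℝ {x}) :
    ∃ c : ℝ, 0 < c ∧ ∀ t : ℝ, |t| ≤ 1 → 2 + c * t ^ 2 ≤ ‖x + t • v‖ + ‖x - t • v‖ := by
  -- the component of `v` off `x`
  set v' : E := v - (f v) • x with hv'
  have hv'0 : v' ≠ 0 := by
    intro h0
    apply hv
    rw [Submodule.mem_span_singleton]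
    exact ⟨f v, (sub_eq_zero.mp h0).symm⟩
  have hv'n : 0 < ‖v'‖ := norm_pos_iff.mpr hv'0
  obtain ⟨ψ, hψ1, hψ2⟩ := exists_dual_vector ℝ v' hv'n.ne'
  -- `ψ₀ v = 1`, `ψ₀ x = 0`
  set ψ₀ : StrongDual ℝ E := ‖v'‖⁻¹ • (ψ - (ψ x) • f) with hψ₀
  have hψ₀x : ψ₀ x = 0 := by
    simp [hψ₀, hfx]
  have hψ₀v : ψ₀ v = 1 := by
    have h1 : ψ v' = ‖v'‖ := by simpa using hψ2
    have h2 : ψ v - f v * ψ x = ‖v'‖ := by
      rw [← h1, hv']
      simp
    have h3 : ψ₀ v = ‖v'‖⁻¹ * (ψ v - f v * ψ x) := by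
      have h4 : ψ₀ v = ‖v'‖⁻¹ * (ψ v - ψ x * f v) := rfl
      rw [h4, mul_comm (ψ x)]
    rw [h3, h2, inv_mul_cancel₀ hv'n.ne']
  -- approximate `ψ₀`
  have hvn : 0 < 4 * (1 + ‖v‖) := by positivity
  obtain ⟨φ, hφ, hφd⟩ := Metric.dense_iff.mp hD ψ₀ (1 / (4 * (1 + ‖v‖))) (by positivity)
  have hφn : ‖φ - ψ₀‖ < 1 / (4 * (1 + ‖v‖)) := by
    simpa [dist_eq_norm] using hφ
  have hQ : Q2 f φ := hφd
  have hφx : |φ x| ≤ 1 / (4 * (1 + ‖v‖)) := by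
    calc |φ x| = ‖(φ - ψ₀) x‖ := by simp [hψ₀x]
      _ ≤ ‖φ - ψ₀‖ * ‖x‖ := (φ - ψ₀).le_opNorm x
      _ ≤ _ := by rw [hx, mul_one]; exact hφn.le
  have hφv : |φ v - 1| ≤ 1 / (4 * (1 + ‖v‖)) * ‖v‖ := by
    calc |φ v - 1| = ‖(φ - ψ₀) v‖ := by simp [hψ₀v]
      _ ≤ ‖φ - ψ₀‖ * ‖v‖ := (φ - ψ₀).le_opNorm v
      _ ≤ _ := by gcongr
  have hfv : |f v| ≤ ‖v‖ := by
    calc |f v| = ‖f v‖ := rfl
      _ ≤ ‖f‖ * ‖v‖ := f.le_opNorm v
      _ = ‖v‖ := by rw [hf, one_mul]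
  -- correct so that it vanishes at `x`
  set φ₁ : StrongDual ℝ E := φ - (φ x) • f with hφ₁
  have hQ₁ : Q2 f φ₁ := by
    have : φ₁ = φ + (-(φ x)) • f := by
      ext z
      change φ z - φ x * f z = φ z + -(φ x) * f z
      ring
    rw [this]
    exact hQ.add ((Q2.self hf).smul _)
  have hφ₁x : φ₁ x = 0 := by simp [hφ₁, hfx]
  have hφ₁v : 1 / 2 ≤ φ₁ v := by
    have h1 : φ₁ v = φ v - φ x * f v := by simp [hφ₁]
    have h2 : |φ x * f v| ≤ 1 / (4 * (1 + ‖v‖)) * ‖v‖ := by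
      rw [abs_mul]
      gcongr
    have h3 : 1 / (4 * (1 + ‖v‖)) * ‖v‖ ≤ 1 / 4 := by
      rw [div_mul_eq_mul_div, one_mul, div_le_div_iff₀ hvn (by norm_num)]
      nlinarith [norm_nonneg v]
    have h4 := abs_le.mp hφv
    have h5 := abs_le.mp h2
    rw [h1]
    linarith [h4.1, h5.2]
  -- normalise
  set φ₂ : StrongDual ℝ E := (φ₁ v)⁻¹ • φ₁ with hφ₂
  obtain ⟨C, hC⟩ : Q2 f φ₂ := hQ₁.smul _
  have hφ₂x : φ₂ x = 0 := by simp [hφ₂, hφ₁x]
  have hφ₂v : φ₂ v = 1 := by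
    change (φ₁ v)⁻¹ * φ₁ v = 1
    exact inv_mul_cancel₀ (by linarith)
  -- one sided bounds for the dual norm
  have hge : ∀ t : ℝ, 1 ≤ ‖f + t • φ₂‖ := fun t => by
    calc (1 : ℝ) = (f + t • φ₂) x := by simp [hfx, hφ₂x]
      _ ≤ ‖(f + t • φ₂) x‖ := Real.le_norm_self _
      _ ≤ ‖f + t • φ₂‖ * ‖x‖ := (f + t • φ₂).le_opNorm x
      _ = ‖f + t • φ₂‖ := by rw [hx, mul_one]
  have hge' : ∀ t : ℝ, 1 ≤ ‖f - t • φ₂‖ := fun t => by
    have h1 := hge (-t)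
    have h2 : f + (-t) • φ₂ = f - t • φ₂ := by
      ext z
      change f z + -t * φ₂ z = f z - t * φ₂ z
      ring
    rwa [h2] at h1
  set D : ℝ := max C 1 with hDdef
  have hD1 : 1 ≤ D := le_max_right _ _
  have hle : ∀ t : ℝ, ‖f + t • φ₂‖ ≤ 1 + D * t ^ 2 := fun t => by
    have h1 := hC t
    have h2 := hge' t
    have h3 : C * t ^ 2 ≤ D * t ^ 2 := mul_le_mul_of_nonneg_right (le_max_left _ _) (sq_nonneg t)
    linarith
  have hle' : ∀ t : ℝ, ‖f - t • φ₂‖ ≤ 1 + D * t ^ 2 := fun t => by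
    have h1 := hC t
    have h2 := hge t
    have h3 : C * t ^ 2 ≤ D * t ^ 2 := mul_le_mul_of_nonneg_right (le_max_left _ _) (sq_nonneg t)
    linarith
  refine ⟨1 / (4 * D), by positivity, fun s hs => ?_⟩
  set u : ℝ := s / (2 * D) with hu
  have hD0 : 0 < D := by linarith
  -- the two pairings
  have p1 : 1 + s * f v + u * s ≤ (1 + D * u ^ 2) * ‖x + s • v‖ := by
    calc 1 + s * f v + u * s = (f + u • φ₂) (x + s • v) := by
          simp [hfx, hφ₂x, hφ₂v]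
      _ ≤ ‖(f + u • φ₂) (x + s • v)‖ := Real.le_norm_self _
      _ ≤ ‖f + u • φ₂‖ * ‖x + s • v‖ := (f + u • φ₂).le_opNorm _
      _ ≤ _ := by gcongr; exact hle u
  have p2 : 1 - s * f v + u * s ≤ (1 + D * u ^ 2) * ‖x - s • v‖ := by
    calc 1 - s * f v + u * s = (f - u • φ₂) (x - s • v) := by
          simp [hfx, hφ₂x, hφ₂v]
      _ ≤ ‖(f - u • φ₂) (x - s • v)‖ := Real.le_norm_self _
      _ ≤ ‖f - u • φ₂‖ * ‖x - s • v‖ := (f - u • φ₂).le_opNorm _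
      _ ≤ _ := by gcongr; exact hle' u
  have hsum : 2 + 2 * (u * s) ≤ (1 + D * u ^ 2) * (‖x + s • v‖ + ‖x - s • v‖) := by
    linarith
  have hus : u * s = s ^ 2 / (2 * D) := by rw [hu]; ring
  have hDu : D * u ^ 2 = s ^ 2 / (4 * D) := by
    rw [hu]
    field_simp
    ring
  set q : ℝ := s ^ 2 / (4 * D) with hq
  have hq0 : 0 ≤ q := by positivity
  have hs1 : s ^ 2 ≤ 1 := by
    rw [← sq_abs s]
    exact pow_le_one₀ (abs_nonneg s) hs
  have hq1 : q ≤ 1 / 4 := by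
    rw [hq, div_le_div_iff₀ (by positivity) (by norm_num)]
    nlinarith
  have hus' : u * s = 2 * q := by rw [hus, hq]; field_simp; ring
  rw [hDu, hus'] at hsum
  have hgoal : 1 / (4 * D) * s ^ 2 = q := by rw [hq]; ring
  rw [hgoal]
  -- `(2 + 4 q) / (1 + q) ≥ 2 + q`
  have hfin : (1 + q) * (2 + q) ≤ (1 + q) * (‖x + s • v‖ + ‖x - s • v‖) := by
    calc (1 + q) * (2 + q) ≤ 2 + 2 * (2 * q) := by nlinarith
      _ ≤ _ := hsum
  exact le_of_mul_le_mul_left hfin (by linarith)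

end Pool.Agent.Helper48.BM2
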