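import Mathlib

/-!
# Directions in which the norm has a second order upper bound form a linear subspace
-/

set_option autoImplicit false

namespace Pool.Agent.Helper48.BM2

variable {E : Type*} [NormedAddCommGroup E] [NormedSpace ℝ E]

/-- the norm has a second order upper bound at the unit vector `x` in the direction `v` -/
def Q2 (x v : E) : Prop := ∃ C : ℝ, ∀ t : ℝ, ‖x + t • v‖ + ‖x - t • v‖ ≤ 2 + C * t ^ 2

lemma Q2.zero {x : E} (hx : ‖x‖ = 1) : Q2 x 0 := ⟨0, fun t => by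
  simp only [smul_zero, add_zero, sub_zero, hx]; norm_num⟩

lemma Q2.self {x : E} (hx : ‖x‖ = 1) : Q2 x x := ⟨1, fun t => by
  have h1 : x + t • x = (1 + t) • x := by rw [add_smul, one_smul]
  have h2 : x - t • x = (1 - t) • x := by rw [sub_smul, one_smul]
  rw [h1, h2, norm_smul, norm_smul, hx, mul_one, mul_one, Real.norm_eq_abs, Real.norm_eq_abs]
  rcases abs_cases (1 + t) with ⟨h3, _⟩ | ⟨h3, _⟩ <;> rcases abs_cases (1 - t) with ⟨h4, _⟩ | ⟨h4, _⟩ <;>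
    rw [h3, h4] <;> nlinarith [sq_nonneg t, sq_nonneg (t - 1), sq_nonneg (t + 1)]⟩

lemma Q2.smul {x v : E} (h : Q2 x v) (a : ℝ) : Q2 x (a • v) := by
  obtain ⟨C, hC⟩ := h
  refine ⟨C * a ^ 2, fun t => ?_⟩
  have := hC (t * a)
  rw [smul_smul]
  calc _ ≤ _ := this
    _ = _ := by ring

lemma Q2.add {x v w : E} (hv : Q2 x v) (hw : Q2 x w) : Q2 x (v + w) := by
  obtain ⟨C, hC⟩ := hv
  obtain ⟨D, hD⟩ := hw
  refine ⟨2 * C + 2 * D, fun t => ?_⟩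
  have h1 := hC (2 * t)
  have h2 := hD (2 * t)
  have h3 : ‖x + t • (v + w)‖ ≤ (‖x + (2 * t) • v‖ + ‖x + (2 * t) • w‖) / 2 := by
    have e : x + t • (v + w) = (1 / 2 : ℝ) • (x + (2 * t) • v) + (1 / 2 : ℝ) • (x + (2 * t) • w) := by
      module
    rw [e]
    calc _ ≤ ‖(1 / 2 : ℝ) • (x + (2 * t) • v)‖ + ‖(1 / 2 : ℝ) • (x + (2 * t) • w)‖ := norm_add_le _ _
      _ = _ := by rw [norm_smul, norm_smul]; norm_num; ring
  have h4 : ‖x - t • (v + w)‖ ≤ (‖x - (2 * t) • v‖ + ‖x - (2 * t) • w‖) / 2 := by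
    have e : x - t • (v + w) = (1 / 2 : ℝ) • (x - (2 * t) • v) + (1 / 2 : ℝ) • (x - (2 * t) • w) := by
      module
    rw [e]
    calc _ ≤ ‖(1 / 2 : ℝ) • (x - (2 * t) • v)‖ + ‖(1 / 2 : ℝ) • (x - (2 * t) • w)‖ := norm_add_le _ _
      _ = _ := by rw [norm_smul, norm_smul]; norm_num; ring
  calc _ ≤ _ := add_le_add h3 h4
    _ ≤ 2 + (2 * C + 2 * D) * t ^ 2 := by nlinarith

/-- the linear subspace of all directions in which the norm has a second order upper bound at `x` -/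
def q2 (x : E) (hx : ‖x‖ = 1) : Submodule ℝ E where
  carrier := {v | Q2 x v}
  add_mem' := fun hv hw => hv.add hw
  zero_mem' := Q2.zero hx
  smul_mem' := fun a _ hv => hv.smul a

lemma mem_q2 {x v : E} (hx : ‖x‖ = 1) : v ∈ q2 x hx ↔ Q2 x v := Iff.rfl

/-- transport by an isometry -/
lemma Q2.map {F : Type*} [NormedAddCommGroup F] [NormedSpace ℝ F] {x v : E} (h : Q2 x v)
    (T : E →ₗᵢ[ℝ] F) : Q2 (T x) (T v) := by
  obtain ⟨C, hC⟩ := h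
  refine ⟨C, fun t => ?_⟩
  rw [← map_smul, ← map_add, ← map_sub, T.norm_map, T.norm_map]
  exact hC t

/-- from the homogeneous form at a nonzero point to the unit vector -/
lemma Q2.of_point {y v : E} {C : ℝ} (hy : y ≠ 0)
    (h : ∀ s : ℝ, ‖y + s • v‖ + ‖y - s • v‖ ≤ 2 * ‖y‖ + C * s ^ 2) : Q2 (‖y‖⁻¹ • y) v := by
  have hy0 : 0 < ‖y‖ := norm_pos_iff.mpr hy
  refine ⟨C * ‖y‖, fun t => ?_⟩
  have h1 := h (‖y‖ * t)
  have h2 : y + (‖y‖ * t) • v = ‖y‖ • (‖y‖⁻¹ • y + t • v) := by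
    rw [smul_add, smul_smul, mul_inv_cancel₀ hy0.ne', one_smul, smul_smul]
  have h3 : y - (‖y‖ * t) • v = ‖y‖ • (‖y‖⁻¹ • y - t • v) := by
    rw [smul_sub, smul_smul, mul_inv_cancel₀ hy0.ne', one_smul, smul_smul]
  rw [h2, h3, norm_smul, norm_smul, norm_norm] at h1
  have h4 : ‖y‖ * (‖‖y‖⁻¹ • y + t • v‖ + ‖‖y‖⁻¹ • y - t • v‖) ≤ ‖y‖ * (2 + C * ‖y‖ * t ^ 2) := by
    calc _ = ‖y‖ * ‖‖y‖⁻¹ • y + t • v‖ + ‖y‖ * ‖‖y‖⁻¹ • y - t • v‖ := by ring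
      _ ≤ 2 * ‖y‖ + C * (‖y‖ * t) ^ 2 := h1
      _ = _ := by ring
  exact le_of_mul_le_mul_left h4 hy0

end Pool.Agent.Helper48.BM2
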